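import Pool.Agent.H519R3.K0V.Final

/-!
# A graded space for which the proportion of coprime pairs of zero-cycles has no limit

The graded space is `U = (Spec k, 𝔾ₘ, ∅, ∅, …)`, with `r = 2`, `n = 1`, `R` the completed ring
`MotHat k` and `μ` its identity. A zero-cycle of degree `d` on `U` is `m₁` times the point of `U₁`
together with an effective zero-cycle of degree `m₂` on `U₂ = 𝔾ₘ`, where `m₁ + 2 m₂ = d`. The
effective zero-cycles of degree `m₂` on `𝔾ₘ` are the monic polynomials of degree `m₂` whose constant
coefficient does not vanish.

* `[X_d] = L^⌊d/2⌋` is invertible for every `d`;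
* if `d` and `e` are odd, the point of `U₁` occurs in every cycle, so that `Z_1^{(d, e)}` is empty
  and the ratio is `0`;
* if `d = e = 2 a` with `a ≥ 1`, the ratio lies in `1 + F_1`.

So the ratio has no limit as soon as the completed ring is not the zero ring. That it is not the
zero ring is shown over every finite field by counting points over its finite extensions.
-/

set_option autoImplicit false

open Filter Topology

namespace Pool.Agent.Results.MP_6cd1fc_ag.CoprimeCyclesNoLimit

open Pool.Agent.H519R3.K0V

/-- For the graded space `U = (Spec k, 𝔾ₘ, ∅, …)`, `r = 2`, `n = 1` and `μ` the identity of the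
completed ring, all the `[X_d]` are invertible, but the ratio `[Z_1^{(d, e)}] / [X_d × X_e]` has no
limit at all as `min (d, e)` tends to infinity, provided the completed ring is not the zero ring,
and this holds over every finite field. -/
theorem result (k : Type) [Field k] :
    (∀ d : ℕ, IsUnit (hcls (cycles k d))) ∧
    (Nontrivial (MotHat k) → ∀ T : MotHat k, ¬ Tendsto (fun d : ℕ × ℕ =>
      hcls (coprimeCycles k d.1 d.2) *
        Ring.inverse (hcls (prodVar (cycles k d.1) (cycles k d.2)))) atTop (𝓝 T)) ∧
    (Finite k → Nontrivial (MotHat k)) :=
  ⟨isUnit_cycles k, fun _ T => not_tendsto k T, fun _ => (nontrivial_iff k).2 (one_notMem k)⟩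

end Pool.Agent.Results.MP_6cd1fc_ag.CoprimeCyclesNoLimit
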