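import Pool.Agent.H353R3.Mot7

/-!
# Motivic stabilization fails for tuples of graded zero-cycles

`k = K` is an algebraic closure of `𝔽₃`; `𝒰₁` is a point, `𝒰₂` the affine line, all other `𝒰ᵢ` are
empty; `r = 2`, `n = 1`; `R` is the completed Grothendieck ring `Mhat` and `μ` the identity.

* `Xd d` is the class of `𝒳_d = ⊔_{m ≤ d/2} Sym^m 𝔸¹`; it is a unit for every `d`.
* `Zd d₁ d₂` is the class of `𝒵_1^{(d₁, d₂)}`.
* The displayed value `1 + ∑_{k ≥ 1} a_k L^{-2 dim 𝒳_k}` exists (it is `0`; `dim 𝒳_k = ⌊k/2⌋`).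
* The ratio `[𝒵_1^{(d₁, d₂)}] / ([𝒳_{d₁}] [𝒳_{d₂}])` has no limit as `min(d₁, d₂) → ∞`.
-/

open Filter Topology Pool.Agent.H353R3.Mot

namespace Pool.Agent.Results.MP_6cd1fc_ag.NoStabilization

theorem result :
    (∀ d, IsUnit (Xd d)) ∧
    (∃ a : ℕ → Mhat, PowerSeries.mk Xd * PowerSeries.mk a = 1 ∧
      HasSum (fun k => a k * Ring.inverse LL ^ (2 * (k / 2))) 0) ∧
    ∀ t : Mhat,
      ¬ Tendsto (fun d : ℕ × ℕ => Zd d.1 d.2 * Ring.inverse (Xd d.1 * Xd d.2)) atTop (𝓝 t) :=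
  ⟨isUnit_Xd, ⟨aseq, mul_aseq, hasSum_aseq⟩, no_limit⟩

end Pool.Agent.Results.MP_6cd1fc_ag.NoStabilization
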